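import Pool.Agent.W964.PiAdic.Sizes

/-!
# The average `π`-adic complexity of the finite sequences of length `n` is `n / 2 + O(1)`

The definitions `prefixValue`, `IsOutput`, `complexity`, `average`, `sizeQuad`, `sizeRoot` are in
`Pool.Agent.W964.PiAdic.Defs`.

Proof. For a word with value `α` modulo `π ^ n` consider the lattice of all `(f, g) ∈ R ^ 2` with
`f ≡ g α` modulo `π ^ n`, in the norm given by the maximum of the coordinates. If `m` is the norm of
its shortest nonzero vector `v`, then by a packing argument in the real span of `R v` and the pigeon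
hole principle it has a vector `w` of norm `O(N ^ (n / d) / m)` that is not proportional to `v`, and
reducing `(α, 1)` modulo `N (R v + R w)` gives a vector with `g ≡ 1` modulo `N` of norm
`O(N ^ (n / d) / m)`. So the complexity is between `d log_N m - O(1)` and `n - d log_N m + O(1)`. On
the other hand the total number of lattice points of norm at most `N ^ (n / (2 d))` with `g ≠ 0`, for
all `N ^ n` values of `α`, is `O(N ^ n)`, and it is at least a constant times the sum of
`(N ^ (n / (2 d)) / m) ^ d`.
-/

set_option autoImplicit false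

open Module
open Pool.Agent.W964.PiAdic

universe u

namespace Pool.Agent.Results.MP_cc6759_lc.HalfN

/-- **The average `π`-adic complexity of finite sequences is `n / 2 + O(1)`.** Let `N ≥ 2` and let
`R = ℤ[π]` be an integral domain (for instance a unique factorisation domain), where
(i) `π ^ 2 = -N` and `1, π` is a basis of `R`, or
(ii) `π ^ d = N` and `1, π, ..., π ^ (d - 1)` is a basis of `R`.
Then there is a constant `C` such that the average `E_n^fin` of the `π`-adic complexity over all
`N ^ n` sequences of length `n` differs from `n / 2` by at most `C`, for all `n`. -/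
theorem result :
    (∀ (N : ℕ), 2 ≤ N → ∀ (R : Type u) [CommRing R] [IsDomain R] (π : R)
      (b : Basis (Fin 2) ℤ R), (∀ i, b i = π ^ (i : ℕ)) → π ^ 2 = -(N : R) →
      ∃ C : ℝ, ∀ n : ℕ, |average π (sizeQuad N b) N n - (n : ℝ) / 2| ≤ C) ∧
    (∀ (N d : ℕ), 2 ≤ N → ∀ (R : Type u) [CommRing R] [IsDomain R] (π : R)
      (b : Basis (Fin d) ℤ R), (∀ i, b i = π ^ (i : ℕ)) → π ^ d = (N : R) →
      ∃ C : ℝ, ∀ n : ℕ, |average π (sizeRoot N b) N n - (n : ℝ) / 2| ≤ C) := by
  constructor
  · intro N hN R _ _ π b hb hπ
    exact abs_average_sub_le b hb (c := -(N : ℤ)) (by rw [hπ]; push_cast; rfl) hN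
      (by simp) (sizeQuad_zero N b) (sizeQuad_bound hN b)
  · intro N d hN R _ _ π b hb hπ
    exact abs_average_sub_le b hb (c := (N : ℤ)) (by rw [hπ]; push_cast; rfl) hN
      (by simp) (sizeRoot_zero N b) (sizeRoot_bound hN b)

end Pool.Agent.Results.MP_cc6759_lc.HalfN
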